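import Pool.Agent.Helper28.TK.StK

/-!
# Project TK, module KRW: the Fricke transform of a cusp form of weight `2A+2` is a cusp form
-/

set_option autoImplicit false

open UpperHalfPlane CongruenceSubgroup Matrix.SpecialLinearGroup
open scoped MatrixGroups ModularForm

namespace Pool.Agent.Helper38.TK

open Pool.Agent.Helper28.TK Pool.Agent.Helper14.WK
open Pool.Agent.Helper14.CV (G0)

private theorem mem0 (N : ℕ) (g : SL(2, ℤ)) : g ∈ Gamma0 N ↔ (N : ℤ) ∣ g 1 0 := by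
  rw [Gamma0_mem, ZMod.intCast_zmod_eq_zero_iff_dvd]

/-- the matrix with rows 0 -1 and N 0 -/
private noncomputable def WW (N : ℕ) [NeZero N] : GL (Fin 2) ℝ :=
  Matrix.GeneralLinearGroup.mkOfDetNeZero !![0, -1; (N : ℝ), 0]
    (by simp [Matrix.det_fin_two, NeZero.ne N])

private theorem WW_coe (N : ℕ) [NeZero N] : (WW N : Matrix (Fin 2) (Fin 2) ℝ) = !![0, -1; (N : ℝ), 0] :=
  rfl

private theorem mk (a b c d : ℤ) (h : a * d - b * c = 1) :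
    ∃ γ : SL(2, ℤ), γ 0 0 = a ∧ γ 0 1 = b ∧ γ 1 0 = c ∧ γ 1 1 = d :=
  ⟨⟨!![a, b; c, d], by rw [Matrix.det_fin_two_of]; exact h⟩, rfl, rfl, rfl, rfl⟩

private theorem dual (N : ℕ) [NeZero N] (γ : SL(2, ℤ)) (hγ : γ ∈ Gamma0 N) :
    ∃ γ' ∈ Gamma0 N, WW N * mapGL ℝ γ = mapGL ℝ γ' * WW N ∧
      mapGL ℝ γ * WW N = WW N * mapGL ℝ γ' := by
  rw [mem0] at hγ
  obtain ⟨c, hc⟩ := hγ
  have hdet := Matrix.SpecialLinearGroup.det_coe γ
  rw [Matrix.det_fin_two, hc] at hdet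
  obtain ⟨γ', h00, h01, h10, h11⟩ := mk (γ 1 1) (-c) (-(N : ℤ) * γ 0 1) (γ 0 0)
    (by linear_combination hdet)
  have hc' : ((γ 1 0 : ℤ) : ℝ) = N * c := by rw [hc]; push_cast; ring
  refine ⟨γ', ?_, ?_, ?_⟩
  · rw [mem0, h10]
    simp
  · ext i j
    fin_cases i <;> fin_cases j <;>
      simp [WW_coe, Matrix.mul_apply, Fin.sum_univ_two, hc', h00, h01, h10, h11] <;> ring
  · ext i j
    fin_cases i <;> fin_cases j <;>
      simp [WW_coe, Matrix.mul_apply, Fin.sum_univ_two, hc', h00, h01, h10, h11] <;> ring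

open ConjAct Pointwise in
private theorem grp (N : ℕ) [NeZero N] : toConjAct (WW N)⁻¹ • G0 N = G0 N := by
  ext x
  rw [toConjAct_inv, Subgroup.mem_inv_pointwise_smul_iff, toConjAct_smul]
  constructor
  · rintro ⟨γ, hγ, he⟩
    obtain ⟨γ', hγ', h1, h2⟩ := dual N γ hγ
    have h3 : WW N * x = WW N * mapGL ℝ γ' := by
      rw [← h2, he, inv_mul_cancel_right]
    rw [mul_left_cancel h3]
    exact Subgroup.mem_map_of_mem _ hγ'
  · rintro ⟨γ, hγ, rfl⟩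
    obtain ⟨γ', hγ', h1, h2⟩ := dual N γ hγ
    rw [h1, mul_inv_cancel_right]
    exact Subgroup.mem_map_of_mem _ hγ'

private theorem tr {Γ Γ' : Subgroup (GL (Fin 2) ℝ)} {k : ℤ} (h : Γ = Γ') (f : CuspForm Γ k) :
    ∃ g : CuspForm Γ' k, ∀ z : ℍ, g z = f z := by
  subst h
  exact ⟨f, fun _ => rfl⟩

private theorem slash_val (N : ℕ) [NeZero N] (A : ℕ) (f : CuspForm (G0 N) (2 * A + 2)) (z : ℂ)
    (hz : 0 < z.im) :
    ((f : ℍ → ℂ) ∣[(2 * A + 2 : ℤ)] (WW N)) ⟨z, hz⟩ =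
      (N * z ^ (2 * A + 2))⁻¹ * fzK f (-1 / (N * z)) := by
  have hN : (0 : ℝ) < N := by exact_mod_cast Nat.pos_of_ne_zero (NeZero.ne N)
  have hdet : (WW N).det.val = (N : ℝ) := by
    rw [Matrix.GeneralLinearGroup.val_det_apply, WW_coe, Matrix.det_fin_two_of]
    ring
  have hpos : 0 < (WW N).det.val := by rw [hdet]; exact hN
  have hz0 : z ≠ 0 := by
    intro h
    rw [h] at hz
    simp at hz
  have hNc : (N : ℂ) ≠ 0 := by exact_mod_cast NeZero.ne N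
  have h1 : denom (WW N) ((⟨z, hz⟩ : ℍ) : ℂ) = N * z := by
    simp [denom, WW_coe]
  have h2 : (((WW N) • (⟨z, hz⟩ : ℍ) : ℍ) : ℂ) = -1 / (N * z) := by
    rw [UpperHalfPlane.coe_smul_of_det_pos hpos]
    simp [num, denom, WW_coe]
  have h3 : fzK f (-1 / (N * z)) = f (WW N • (⟨z, hz⟩ : ℍ)) := by
    rw [fzK, ← h2, UpperHalfPlane.ofComplex_apply]
  have h4 : (σ (WW N)) (f (WW N • (⟨z, hz⟩ : ℍ))) = f (WW N • (⟨z, hz⟩ : ℍ)) := by
    rw [σ, if_pos hpos]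
    rfl
  rw [ModularForm.slash_apply, h4, h1, hdet, h3, abs_of_pos hN]
  have h5 : ((2 * (A : ℤ) + 2) - 1) = ((2 * A + 1 : ℕ) : ℤ) := by push_cast; ring
  have h7 : ((N : ℂ) * z) ^ (-(2 * (A : ℤ) + 2)) = (((N : ℂ) * z) ^ (2 * A + 2))⁻¹ := by
    rw [zpow_neg]
    norm_cast
  rw [h5, h7, zpow_natCast, mul_pow, show 2 * A + 2 = (2 * A + 1) + 1 from rfl,
    pow_succ (N : ℂ) (2 * A + 1)]
  push_cast
  field_simp

/-- Module KRW. -/
theorem hKRW : KRW := by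
  intro N hN A f
  obtain ⟨g, hg⟩ := tr (grp N) (CuspForm.translate f (WW N))
  refine ⟨((-1 : ℝ) ^ (A + 1) * ((N : ℝ) ^ A)⁻¹) • g, fun z hz => ?_⟩
  have hNc : (N : ℂ) ≠ 0 := by exact_mod_cast NeZero.ne N
  have h1 : fzK (((-1 : ℝ) ^ (A + 1) * ((N : ℝ) ^ A)⁻¹) • g) z =
      (((-1 : ℝ) ^ (A + 1) * ((N : ℝ) ^ A)⁻¹ : ℝ) : ℂ) * (g ⟨z, hz⟩) := by
    have := UpperHalfPlane.ofComplex_apply (⟨z, hz⟩ : ℍ)
    rw [fzK]
    have h2 : ofComplex z = (⟨z, hz⟩ : ℍ) := this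
    rw [h2]
    simp [Algebra.smul_def]
  have h3 : g ⟨z, hz⟩ = (N * z ^ (2 * A + 2))⁻¹ * fzK f (-1 / (N * z)) := by
    rw [hg, ← slash_val N A f z hz]
    rfl
  rw [h1, h3]
  push_cast
  rw [pow_succ (N : ℂ) A]
  have hz0 : z ≠ 0 := by
    intro h
    rw [h] at hz
    simp at hz
  field_simp

end Pool.Agent.Helper38.TK
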